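import Pool.Agent.TH58.SN8

set_option autoImplicit false

namespace Pool.Agent.Results.MP_3dd357_co.ThetaLowerBound

/-- For every k at least 5 there is a constant c > 0 such that for every n at least 1 there is a
graph G on n vertices without an independent set of k vertices, and a feasible point B of the
semidefinite program defining the Lovász theta function of G (positive semidefinite, trace one,
zero on the edges of G), whose entries add up to at least c * n ^ (1/2 - 1/(2(k-1))). -/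
theorem result (k : ℕ) (hk : 5 ≤ k) :
    ∃ c : ℝ, 0 < c ∧ ∀ n : ℕ, 1 ≤ n →
      ∃ (G : SimpleGraph (Fin n)) (B : Matrix (Fin n) (Fin n) ℝ),
        (∀ s : Finset (Fin n), G.IsIndepSet (s : Set (Fin n)) → s.card < k) ∧
        B.PosSemidef ∧ B.trace = 1 ∧ (∀ i j, G.Adj i j → B i j = 0) ∧
        c * (n : ℝ) ^ ((1 : ℝ) / 2 - 1 / (2 * ((k : ℝ) - 1))) ≤ ∑ i, ∑ j, B i j := by
  obtain ⟨j, rfl⟩ : ∃ j, k = j + 3 := ⟨k - 3, by omega⟩
  obtain ⟨c, hc, h⟩ := Pool.Agent.TH58.SN.main_j j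
  refine ⟨c ^ 2, by positivity, fun n hn => ?_⟩
  obtain ⟨v, hv1, hv2, hv3⟩ := h n hn
  have hn0 : (0 : ℝ) < n := by exact_mod_cast hn
  have hk1 : (((j + 3 : ℕ) : ℝ) - 1) = (j : ℝ) + 2 := by push_cast; ring
  let G : SimpleGraph (Fin n) :=
    { Adj := fun a b => a ≠ b ∧ inner ℝ (v a) (v b) = 0
      symm := ⟨fun a b h => ⟨h.1.symm, by rw [real_inner_comm]; exact h.2⟩⟩
      loopless := ⟨fun a h => h.1 rfl⟩ }
  let B : Matrix (Fin n) (Fin n) ℝ := ((n : ℝ)⁻¹) • Matrix.gram ℝ v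
  refine ⟨G, B, ?_, ?_, ?_, ?_, ?_⟩
  · intro s hs
    by_contra hcard
    push Not at hcard
    obtain ⟨t, hts, ht⟩ := Finset.exists_subset_card_eq hcard
    obtain ⟨a, ha, b, hb, hab, h0⟩ := hv2 t ht
    exact hs (hts ha) (hts hb) hab ⟨hab, h0⟩
  · exact (Matrix.posSemidef_gram ℝ v).smul (by positivity)
  · simp only [B, Matrix.trace_smul, smul_eq_mul]
    have : (Matrix.gram ℝ v).trace = n := by
      simp [Matrix.trace, Matrix.gram_apply, hv1]
    rw [this]
    field_simp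
  · intro a b hab
    simp [B, Matrix.gram_apply, hab.2]
  · have hsum : ∑ a, ∑ b, B a b = (n : ℝ)⁻¹ * ‖∑ i, v i‖ ^ 2 := by
      rw [← real_inner_self_eq_norm_sq, sum_inner]
      simp only [inner_sum, B, Matrix.smul_apply, Matrix.gram_apply, smul_eq_mul, ← Finset.mul_sum]
    rw [hsum, hk1]
    have hsq : (c * (n : ℝ) ^ ((3 : ℝ) / 4 - 1 / (4 * ((j : ℝ) + 2)))) ^ 2 ≤ ‖∑ i, v i‖ ^ 2 :=
      pow_le_pow_left₀ (by positivity) hv3 2
    have hpow : (n : ℝ)⁻¹ * (c * (n : ℝ) ^ ((3 : ℝ) / 4 - 1 / (4 * ((j : ℝ) + 2)))) ^ 2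
        = c ^ 2 * (n : ℝ) ^ ((1 : ℝ) / 2 - 1 / (2 * ((j : ℝ) + 2))) := by
      rw [mul_pow, ← Real.rpow_natCast ((n : ℝ) ^ _) 2, ← Real.rpow_mul hn0.le,
        ← Real.rpow_neg_one]
      rw [mul_left_comm, ← Real.rpow_add hn0]
      congr 2
      push_cast
      have : (j : ℝ) + 2 ≠ 0 := by positivity
      field_simp
      ring
    rw [← hpow]
    exact mul_le_mul_of_nonneg_left hsq (by positivity)

end Pool.Agent.Results.MP_3dd357_co.ThetaLowerBound
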